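import Pool.Agent.H841Z.Mal.Defs
import Pool.Agent.H841Z.Mal.Main

namespace Pool.Agent.Results.MP_7eef47_al.AMalnormalNotSQC

open Pool.Agent.Helper548.HB Pool.Agent.H841Z.Mal

/-- There is a hierarchically hyperbolic group `G` (finite generating set `S`) with a finitely
generated, almost malnormal subgroup `H` which is not strongly quasiconvex. -/
theorem result : ∃ (G : Type) (_ : Group G) (S : Finset G),
    Subgroup.closure (S : Set G) = ⊤ ∧ Nonempty (HHG G S) ∧
    ∃ H : Subgroup G, H.FG ∧ AlmostMalnormal H ∧ ¬ StronglyQuasiconvex S H :=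
  Pool.Agent.H841Z.Mal.main

end Pool.Agent.Results.MP_7eef47_al.AMalnormalNotSQC
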